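import Pool.Agent.Helper57.SS.Goals

/-!
# Project SS: packet DIS
-/

set_option autoImplicit false

namespace Pool.Agent.Helper35.SS

open Pool.Agent.Helper57.SS
open MeasureTheory ProbabilityTheory Filter Topology
open scoped ComplexConjugate

theorem exists_countable_piSystem (α : Type) [m : MeasurableSpace α] [MeasurableSpace.CountablyGenerated α] :
    ∃ C : Set (Set α), C.Countable ∧ IsPiSystem C ∧ m = MeasurableSpace.generateFrom C ∧ Set.univ ∈ C ∧
      ∀ s ∈ C, MeasurableSet s := by
  have h1 : IsSetAlgebra (generateSetAlgebra (MeasurableSpace.countableGeneratingSet α)) :=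
    isSetAlgebra_generateSetAlgebra
  have h2 : m = MeasurableSpace.generateFrom (generateSetAlgebra (MeasurableSpace.countableGeneratingSet α)) := by
    rw [generateFrom_generateSetAlgebra_eq, MeasurableSpace.generateFrom_countableGeneratingSet]
  refine ⟨generateSetAlgebra (MeasurableSpace.countableGeneratingSet α),
    countable_generateSetAlgebra (MeasurableSpace.countable_countableGeneratingSet), ?_, h2, h1.univ_mem, ?_⟩
  · intro s hs t ht _
    exact h1.inter_mem hs ht
  · intro s hs
    rw [h2]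
    exact MeasurableSpace.measurableSet_generateFrom hs

theorem gDIS : G_DIS := by
  intro σ1 σ2 σ3 _ _ _ F G hF hG h
  obtain ⟨C, hCc, hCp, hCg, hCu, hCm⟩ := exists_countable_piSystem Ci
  have hI1 := hF.2.2.prod_right_ae
  have hI2 := hG.2.2.prod_right_ae
  have hadd : Measurable (fun z : Ci × Ci => z.1 + z.2) := measurable_fst.add measurable_snd
  have key : ∀ A ∈ C, ∀ᵐ s ∂σ1, ∫ t in {t | s + t ∈ A}, F (s, t) ∂σ2 = ∫ y in A, G (s, y) ∂σ3 := by
    intro A hA
    have hAm := hCm A hA
    have hSm : MeasurableSet {z : Ci × Ci | z.1 + z.2 ∈ A} := hadd hAm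
    have hSm' : MeasurableSet {z : Ci × Ci | z.2 ∈ A} := measurable_snd hAm
    have hf : Integrable ({z : Ci × Ci | z.1 + z.2 ∈ A}.indicator F) (σ1.prod σ2) := hF.2.2.indicator hSm
    have hg : Integrable ({z : Ci × Ci | z.2 ∈ A}.indicator G) (σ1.prod σ3) := hG.2.2.indicator hSm'
    have e1 : ∀ s, ∫ t in {t | s + t ∈ A}, F (s, t) ∂σ2 = ∫ t, {z : Ci × Ci | z.1 + z.2 ∈ A}.indicator F (s, t) ∂σ2 := by
      intro s
      have hm : MeasurableSet {t : Ci | s + t ∈ A} :=
        (show Measurable (fun t : Ci => s + t) from measurable_const.add measurable_id) hAm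
      rw [← integral_indicator hm]
      rfl
    have e2 : ∀ s, ∫ y in A, G (s, y) ∂σ3 = ∫ y, {z : Ci × Ci | z.2 ∈ A}.indicator G (s, y) ∂σ3 := by
      intro s
      rw [← integral_indicator hAm]
      rfl
    simp only [e1, e2]
    refine Integrable.ae_eq_of_forall_setIntegral_eq _ _ hf.integral_prod_left hg.integral_prod_left ?_
    intro B hB _
    have h1 := h (B ×ˢ A) (hB.prod hAm)
    have h2 : ∫ s in B, ∫ t, {z : Ci × Ci | z.1 + z.2 ∈ A}.indicator F (s, t) ∂σ2 ∂σ1 =
        ∫ z in {z : Ci × Ci | (z.1, z.1 + z.2) ∈ B ×ˢ A}, F z ∂(σ1.prod σ2) := by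
      have h3 := setIntegral_prod (μ := σ1) (ν := σ2) (s := B) (t := Set.univ)
        ({z : Ci × Ci | z.1 + z.2 ∈ A}.indicator F) hf.integrableOn
      rw [Measure.restrict_univ] at h3
      rw [← h3, setIntegral_indicator hSm]
      congr 2
      ext z
      simp
    have h4 : ∫ s in B, ∫ y, {z : Ci × Ci | z.2 ∈ A}.indicator G (s, y) ∂σ3 ∂σ1 = ∫ z in B ×ˢ A, G z ∂(σ1.prod σ3) := by
      have h3 := setIntegral_prod (μ := σ1) (ν := σ3) (s := B) (t := Set.univ)
        ({z : Ci × Ci | z.2 ∈ A}.indicator G) hg.integrableOn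
      rw [Measure.restrict_univ] at h3
      rw [← h3, setIntegral_indicator hSm']
      congr 2
      ext z
      simp
    rw [h2, h4]
    exact h1
  have key2 : ∀ᵐ s ∂σ1, ∀ A ∈ C, ∫ t in {t | s + t ∈ A}, F (s, t) ∂σ2 = ∫ y in A, G (s, y) ∂σ3 :=
    (ae_ball_iff hCc).2 key
  filter_upwards [hI1, hI2, key2] with s h1 h2 h3
  refine ⟨h1, h2, ?_⟩
  have hFs : Measurable (fun t => F (s, t)) := hF.1.comp measurable_prodMk_left
  have hGs : Measurable (fun t => G (s, t)) := hG.1.comp measurable_prodMk_left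
  have hsh : Measurable (fun t : Ci => s + t) := measurable_const.add measurable_id
  -- the two measures
  have m1 : ∀ A, MeasurableSet A → ((σ2.withDensity fun t => ENNReal.ofReal (F (s, t))).map fun t => s + t) A =
      ENNReal.ofReal (∫ t in {t | s + t ∈ A}, F (s, t) ∂σ2) := by
    intro A hA
    rw [Measure.map_apply hsh hA, withDensity_apply _ (hsh hA),
      ofReal_integral_eq_lintegral_ofReal h1.integrableOn (Eventually.of_forall fun t => hF.2.1 _)]
    rfl
  have m2 : ∀ A, MeasurableSet A → (σ3.withDensity fun t => ENNReal.ofReal (G (s, t))) A =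
      ENNReal.ofReal (∫ y in A, G (s, y) ∂σ3) := by
    intro A hA
    rw [withDensity_apply _ hA,
      ofReal_integral_eq_lintegral_ofReal h2.integrableOn (Eventually.of_forall fun t => hG.2.1 _)]
  have f1 : IsFiniteMeasure ((σ2.withDensity fun t => ENNReal.ofReal (F (s, t))).map fun t => s + t) :=
    ⟨by rw [m1 _ MeasurableSet.univ]; exact ENNReal.ofReal_lt_top⟩
  have heq : ((σ2.withDensity fun t => ENNReal.ofReal (F (s, t))).map fun t => s + t) =
      σ3.withDensity fun t => ENNReal.ofReal (G (s, t)) := by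
    refine ext_of_generate_finite C hCg hCp ?_ ?_
    · intro A hA
      rw [m1 A (hCm A hA), m2 A (hCm A hA), h3 A hA]
    · rw [m1 _ MeasurableSet.univ, m2 _ MeasurableSet.univ, h3 _ hCu]
  intro A hA
  have h4 := m1 A hA
  rw [heq, m2 A hA] at h4
  have n1 : 0 ≤ ∫ t in {t | s + t ∈ A}, F (s, t) ∂σ2 := integral_nonneg fun t => hF.2.1 _
  have n2 : 0 ≤ ∫ y in A, G (s, y) ∂σ3 := integral_nonneg fun t => hG.2.1 _
  exact ((ENNReal.ofReal_eq_ofReal_iff n2 n1).1 h4).symm

end Pool.Agent.Helper35.SS
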