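import Pool.Agent.Helper61.SS.Goals

set_option autoImplicit false

namespace Pool.Agent.Helper35.SS

open TensorProduct Filter Topology
open Pool.Agent.Helper61.SS

universe u v w

/-! ## The completion of a non-unital seminormed ring -/

section Compl

open UniformSpace UniformSpace.Completion IsDenseInducing Function

variable (α : Type u) [NonUnitalSeminormedRing α]

/-- Multiplication of the completion. -/
noncomputable def cmul : Completion α → Completion α → Completion α :=
  curry <| (isDenseInducing_coe.prodMap isDenseInducing_coe).extend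
    ((fun x : α => (x : Completion α)) ∘ uncurry (· * ·))

variable {α}

theorem cmul_coe (a b : α) : cmul α (a : Completion α) (b : Completion α)
    = ((a * b : α) : Completion α) :=
  ((isDenseInducing_coe.prodMap isDenseInducing_coe).extend_eq
      ((continuous_coe α).comp (@continuous_mul α _ _ _)) (a, b))

theorem continuous_cmul : Continuous (fun p : Completion α × Completion α => cmul α p.1 p.2) := by
  let m := (AddMonoidHom.mul : α →+ α →+ α).compr₂ toCompl
  have : Continuous fun p : α × α => m p.1 p.2 := (continuous_coe α).comp continuous_mul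
  have di : IsDenseInducing (toCompl : α → Completion α) := isDenseInducing_coe
  exact (di.extend_Z_bilin di this :)

theorem cmul_comp {X : Type w} [TopologicalSpace X] {f g : X → Completion α} (hf : Continuous f)
    (hg : Continuous g) : Continuous (fun x => cmul α (f x) (g x)) :=
  continuous_cmul.comp (hf.prodMk hg)

theorem cmul_assoc' (a b c : Completion α) :
    cmul α (cmul α a b) c = cmul α a (cmul α b c) := by
  refine Completion.induction_on₃ a b c ?_ ?_
  · apply isClosed_eq
    · exact cmul_comp (cmul_comp (by fun_prop) (by fun_prop)) (by fun_prop)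
    · exact cmul_comp (by fun_prop) (cmul_comp (by fun_prop) (by fun_prop))
  · intro a b c
    simp only [cmul_coe, mul_assoc]

theorem cmul_left_distrib (a b c : Completion α) :
    cmul α a (b + c) = cmul α a b + cmul α a c := by
  refine Completion.induction_on₃ a b c ?_ ?_
  · apply isClosed_eq
    · exact cmul_comp (by fun_prop) (by fun_prop)
    · refine Continuous.add ?_ ?_
      · exact cmul_comp (by fun_prop) (by fun_prop)
      · exact cmul_comp (by fun_prop) (by fun_prop)
  · intro a b c
    rw [← coe_add, cmul_coe, cmul_coe, cmul_coe, mul_add, coe_add]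

theorem cmul_right_distrib (a b c : Completion α) :
    cmul α (a + b) c = cmul α a c + cmul α b c := by
  refine Completion.induction_on₃ a b c ?_ ?_
  · apply isClosed_eq
    · exact cmul_comp (by fun_prop) (by fun_prop)
    · refine Continuous.add ?_ ?_
      · exact cmul_comp (by fun_prop) (by fun_prop)
      · exact cmul_comp (by fun_prop) (by fun_prop)
  · intro a b c
    rw [← coe_add, cmul_coe, cmul_coe, cmul_coe, add_mul, coe_add]

theorem cmul_zero' (a : Completion α) : cmul α a 0 = 0 := by
  refine Completion.induction_on a ?_ ?_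
  · exact isClosed_eq (cmul_comp (by fun_prop) (by fun_prop)) continuous_const
  · intro a
    rw [← coe_zero, cmul_coe, mul_zero]

theorem czero_mul' (a : Completion α) : cmul α 0 a = 0 := by
  refine Completion.induction_on a ?_ ?_
  · exact isClosed_eq (cmul_comp (by fun_prop) (by fun_prop)) continuous_const
  · intro a
    rw [← coe_zero, cmul_coe, zero_mul]

theorem norm_cmul_le (a b : Completion α) : ‖cmul α a b‖ ≤ ‖a‖ * ‖b‖ := by
  refine Completion.induction_on₂ a b ?_ ?_
  · exact isClosed_le (cmul_comp (by fun_prop) (by fun_prop)).norm (by fun_prop)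
  · intro a b
    rw [cmul_coe]
    simp only [norm_coe]
    exact norm_mul_le a b

variable (α)

/-- The ring structure of the completion. -/
@[reducible] noncomputable def cring : NonUnitalNormedRing (Completion α) :=
  { (inferInstance : NormedAddCommGroup (Completion α)) with
    mul := cmul α
    left_distrib := cmul_left_distrib
    right_distrib := cmul_right_distrib
    zero_mul := czero_mul'
    mul_zero := cmul_zero'
    mul_assoc := cmul_assoc'
    norm_mul_le := norm_cmul_le }

variable [NormedSpace ℂ α]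

theorem csmul_mul [IsScalarTower ℂ α α] (c : ℂ) (a b : Completion α) : cmul α (c • a) b = c • cmul α a b := by
  refine Completion.induction_on₂ a b ?_ ?_
  · apply isClosed_eq
    · exact cmul_comp (continuous_fst.const_smul c) continuous_snd
    · exact (cmul_comp continuous_fst continuous_snd).const_smul c
  · intro a b
    rw [← coe_smul, cmul_coe, cmul_coe, smul_mul_assoc, coe_smul]

theorem cmul_smul [SMulCommClass ℂ α α] (c : ℂ) (a b : Completion α) : cmul α a (c • b) = c • cmul α a b := by
  refine Completion.induction_on₂ a b ?_ ?_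
  · apply isClosed_eq
    · exact cmul_comp continuous_fst (continuous_snd.const_smul c)
    · exact (cmul_comp continuous_fst continuous_snd).const_smul c
  · intro a b
    rw [← coe_smul, cmul_coe, cmul_coe, mul_smul_comm, coe_smul]

end Compl

/-! ## The projective norm -/

section PN

variable {A : Type u} {B : Type v} [NonUnitalNormedRing A] [NormedSpace ℂ A]
  [NonUnitalNormedRing B] [NormedSpace ℂ B]

theorem pn_bdd (t : A ⊗[ℂ] B) :
    BddBelow {r : ℝ | ∃ (n : ℕ) (a : Fin n → A) (b : Fin n → B),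
      t = ∑ i, a i ⊗ₜ[ℂ] b i ∧ r = ∑ i, ‖a i‖ * ‖b i‖} := by
  refine ⟨0, ?_⟩
  rintro r ⟨n, a, b, -, rfl⟩
  exact Finset.sum_nonneg fun i _ => by positivity

theorem pn_le_sum {ι : Type} [Fintype ι] (a : ι → A) (b : ι → B) :
    pn (∑ i, a i ⊗ₜ[ℂ] b i) ≤ ∑ i, ‖a i‖ * ‖b i‖ := by
  apply csInf_le (pn_bdd _)
  refine ⟨Fintype.card ι, fun k => a ((Fintype.equivFin ι).symm k),
    fun k => b ((Fintype.equivFin ι).symm k), ?_, ?_⟩
  · exact ((Fintype.equivFin ι).symm.sum_comp (fun i => a i ⊗ₜ[ℂ] b i)).symm
  · exact ((Fintype.equivFin ι).symm.sum_comp (fun i => ‖a i‖ * ‖b i‖)).symm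

theorem le_pn' (t : A ⊗[ℂ] B) (x : ℝ) (h : ∀ (n : ℕ) (a : Fin n → A) (b : Fin n → B),
    t = ∑ i, a i ⊗ₜ[ℂ] b i → x ≤ ∑ i, ‖a i‖ * ‖b i‖) : x ≤ pn t := by
  apply le_csInf
  · obtain ⟨n, a, b, hab⟩ := TensorProduct.exists_sum_tmul_eq t
    exact ⟨_, n, a, b, hab, rfl⟩
  · rintro r ⟨n, a, b, hab, rfl⟩
    exact h n a b hab

theorem pn_nonneg (t : A ⊗[ℂ] B) : 0 ≤ pn t :=
  le_pn' t 0 fun n a b _ => Finset.sum_nonneg fun i _ => by positivity

theorem pn_zero : pn (0 : A ⊗[ℂ] B) = 0 := by
  apply le_antisymm _ (pn_nonneg _)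
  have := pn_le_sum (ι := Fin 0) (fun _ => (0 : A)) (fun _ => (0 : B))
  simpa using this

theorem pn_add (s t : A ⊗[ℂ] B) : pn (s + t) ≤ pn s + pn t := by
  have h1 : pn (s + t) - pn t ≤ pn s := by
    apply le_pn'
    intro n a b hab
    have h2 : pn (s + t) - ∑ i, ‖a i‖ * ‖b i‖ ≤ pn t := by
      apply le_pn'
      intro m a' b' hab'
      have h3 := pn_le_sum (ι := Fin n ⊕ Fin m) (Sum.elim a a') (Sum.elim b b')
      simp only [Fintype.sum_sum_type, Sum.elim_inl, Sum.elim_inr] at h3
      rw [← hab, ← hab'] at h3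
      linarith
    linarith
  linarith

theorem pn_smul_le (c : ℂ) (t : A ⊗[ℂ] B) : pn (c • t) ≤ ‖c‖ * pn t := by
  rcases eq_or_ne c 0 with rfl | hc
  · rw [zero_smul, pn_zero, norm_zero, zero_mul]
  · have hc' : 0 < ‖c‖ := norm_pos_iff.mpr hc
    rw [← div_le_iff₀' hc']
    apply le_pn'
    intro n a b hab
    rw [div_le_iff₀' hc', hab, Finset.smul_sum, Finset.mul_sum]
    have h3 := pn_le_sum (ι := Fin n) (fun i => c • a i) b
    simp only [norm_smul] at h3
    calc pn (∑ i, c • (a i ⊗ₜ[ℂ] b i)) = pn (∑ i, (c • a i) ⊗ₜ[ℂ] b i) := by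
          simp only [TensorProduct.smul_tmul']
      _ ≤ _ := h3
      _ = _ := by simp only [mul_assoc]

theorem pn_neg (t : A ⊗[ℂ] B) : pn (-t) = pn t := by
  have h : ∀ s : A ⊗[ℂ] B, pn (-s) ≤ pn s := by
    intro s
    have := pn_smul_le (-1 : ℂ) s
    rwa [neg_smul, one_smul, norm_neg, norm_one, one_mul] at this
  apply le_antisymm (h t)
  have := h (-t)
  rwa [neg_neg] at this

variable [IsScalarTower ℂ A A] [SMulCommClass ℂ A A] [IsScalarTower ℂ B B] [SMulCommClass ℂ B B]

theorem pn_mul (s t : A ⊗[ℂ] B) : pn (s * t) ≤ pn s * pn t := by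
  -- first for representations
  have h0 : ∀ (n : ℕ) (a : Fin n → A) (b : Fin n → B), s = ∑ i, a i ⊗ₜ[ℂ] b i →
      ∀ (m : ℕ) (a' : Fin m → A) (b' : Fin m → B), t = ∑ i, a' i ⊗ₜ[ℂ] b' i →
      pn (s * t) ≤ (∑ i, ‖a i‖ * ‖b i‖) * ∑ i, ‖a' i‖ * ‖b' i‖ := by
    intro n a b hab m a' b' hab'
    have h3 := pn_le_sum (ι := Fin n × Fin m) (fun p => a p.1 * a' p.2) (fun p => b p.1 * b' p.2)
    have h4 : s * t = ∑ p : Fin n × Fin m, (a p.1 * a' p.2) ⊗ₜ[ℂ] (b p.1 * b' p.2) := by
      rw [hab, hab', Finset.sum_mul_sum, Fintype.sum_prod_type]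
      simp only [Algebra.TensorProduct.tmul_mul_tmul]
    rw [← h4] at h3
    apply h3.trans
    rw [Finset.sum_mul_sum, Fintype.sum_prod_type]
    apply Finset.sum_le_sum
    intro i _
    apply Finset.sum_le_sum
    intro k _
    calc ‖a i * a' k‖ * ‖b i * b' k‖ ≤ (‖a i‖ * ‖a' k‖) * (‖b i‖ * ‖b' k‖) := by
          gcongr <;> exact norm_mul_le _ _
      _ = _ := by ring
  rcases eq_or_lt_of_le (pn_nonneg t) with ht | ht
  · -- pn t = 0
    obtain ⟨n, a, b, hab⟩ := TensorProduct.exists_sum_tmul_eq s
    have hR : 0 ≤ ∑ i, ‖a i‖ * ‖b i‖ := Finset.sum_nonneg fun i _ => by positivity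
    have h1 : pn (s * t) / (1 + ∑ i, ‖a i‖ * ‖b i‖) ≤ pn t := by
      apply le_pn'
      intro m a' b' hab'
      rw [div_le_iff₀ (by positivity)]
      have hR' : 0 ≤ ∑ i, ‖a' i‖ * ‖b' i‖ := Finset.sum_nonneg fun i _ => by positivity
      have := h0 n a b hab m a' b' hab'
      nlinarith
    rw [← ht, div_le_iff₀ (by positivity), zero_mul] at h1
    rw [← ht, mul_zero]
    exact h1
  · rw [← div_le_iff₀ ht]
    apply le_pn'
    intro n a b hab
    rw [div_le_iff₀ ht]
    have hR : 0 ≤ ∑ i, ‖a i‖ * ‖b i‖ := Finset.sum_nonneg fun i _ => by positivity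
    rcases eq_or_lt_of_le hR with hR0 | hR0
    · obtain ⟨m, a', b', hab'⟩ := TensorProduct.exists_sum_tmul_eq t
      have := h0 n a b hab m a' b' hab'
      rw [← hR0, zero_mul] at this
      rw [← hR0, zero_mul]
      exact this
    · rw [← div_le_iff₀' hR0]
      apply le_pn'
      intro m a' b' hab'
      rw [div_le_iff₀' hR0]
      exact h0 n a b hab m a' b' hab'

end PN

/-! ## The algebraic tensor product as a seminormed ring -/

section PT

/-- The algebraic tensor product. -/
def PT (A : Type u) (B : Type v) [NonUnitalNormedRing A] [NormedSpace ℂ A]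
    [NonUnitalNormedRing B] [NormedSpace ℂ B] : Type (max u v) := A ⊗[ℂ] B

variable (A : Type u) (B : Type v) [NonUnitalNormedRing A] [NormedSpace ℂ A]
  [NonUnitalNormedRing B] [NormedSpace ℂ B]
  [IsScalarTower ℂ A A] [SMulCommClass ℂ A A] [IsScalarTower ℂ B B] [SMulCommClass ℂ B B]

noncomputable instance : NonUnitalRing (PT A B) :=
  inferInstanceAs (NonUnitalRing (A ⊗[ℂ] B))

/-- The seminorm. -/
noncomputable def psn : AddGroupSeminorm (PT A B) where
  toFun := fun t => pn (A := A) (B := B) t
  map_zero' := pn_zero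
  add_le' := pn_add
  neg' := pn_neg

noncomputable instance : SeminormedAddCommGroup (PT A B) :=
  (psn A B).toSeminormedAddCommGroup

noncomputable instance : NonUnitalSeminormedRing (PT A B) :=
  { (inferInstance : SeminormedAddCommGroup (PT A B)),
    (inferInstance : NonUnitalRing (PT A B)) with
    norm_mul_le := fun s t => pn_mul (A := A) (B := B) s t }

noncomputable instance : Module ℂ (PT A B) :=
  inferInstanceAs (Module ℂ (A ⊗[ℂ] B))

noncomputable instance : NormedSpace ℂ (PT A B) where
  norm_smul_le := fun c t => pn_smul_le (A := A) (B := B) c t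

instance : IsScalarTower ℂ (PT A B) (PT A B) :=
  inferInstanceAs (IsScalarTower ℂ (A ⊗[ℂ] B) (A ⊗[ℂ] B))

instance : SMulCommClass ℂ (PT A B) (PT A B) :=
  inferInstanceAs (SMulCommClass ℂ (A ⊗[ℂ] B) (A ⊗[ℂ] B))

end PT

/-- PACKET EXI. -/
theorem gEXI : G_EXI.{u, v} := by
  intro A B _ _ _ _ _ _ _ _ _ _
  let toC : A ⊗[ℂ] B →ₗ[ℂ] UniformSpace.Completion (PT A B) :=
    (UniformSpace.Completion.toComplₗᵢ (𝕜 := ℂ) (E := PT A B)).toLinearMap
  let j : A →ₗ[ℂ] B →ₗ[ℂ] UniformSpace.Completion (PT A B) := (TensorProduct.mk ℂ A B).compr₂ toC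
  have hlift : ∀ t : A ⊗[ℂ] B, TensorProduct.lift j t = toC t := by
    intro t
    have : TensorProduct.lift j = toC := TensorProduct.ext' fun a b => by
      rw [TensorProduct.lift.tmul]
      rfl
    rw [this]
  let iR : NonUnitalNormedRing (UniformSpace.Completion (PT A B)) := cring (PT A B)
  have i1 : IsScalarTower ℂ (UniformSpace.Completion (PT A B))
      (UniformSpace.Completion (PT A B)) := ⟨fun c a b => csmul_mul (PT A B) c a b⟩
  have i2 : SMulCommClass ℂ (UniformSpace.Completion (PT A B))
      (UniformSpace.Completion (PT A B)) := ⟨fun c a b => (cmul_smul (PT A B) c a b).symm⟩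
  refine ⟨UniformSpace.Completion (PT A B), iR,
    (inferInstance : NormedSpace ℂ (UniformSpace.Completion (PT A B))), i1, i2,
    inferInstance, j, ?_, ?_, ?_⟩
  · intro a a' b b'
    have hm : ∀ x y : A ⊗[ℂ] B, cmul (PT A B) (toC x) (toC y) = toC (x * y) := by
      intro x y
      exact cmul_coe (α := PT A B) x y
    have h1 : ∀ a b, j a b = toC (a ⊗ₜ[ℂ] b) := fun a b => rfl
    rw [h1, h1, h1]
    refine (hm _ _).trans ?_
    rw [Algebra.TensorProduct.tmul_mul_tmul]
  · intro t
    rw [hlift]
    exact (UniformSpace.Completion.toComplₗᵢ (𝕜 := ℂ) (E := PT A B)).norm_map t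
  · have : ⇑(TensorProduct.lift j) = ⇑toC := by
      funext t
      exact hlift t
    rw [this]
    exact UniformSpace.Completion.denseRange_coe (α := PT A B)

end Pool.Agent.Helper35.SS
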