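import Pool.Agent.Helper57.SS.Goals

/-!
# Project SS: packet REP
-/

set_option autoImplicit false

namespace Pool.Agent.Helper35.SS

open Pool.Agent.Helper57.SS
open MeasureTheory ProbabilityTheory Filter Topology
open scoped ComplexConjugate

/-- the characters as continuous functions -/
noncomputable def e2c (p : ℤ × ℤ) : C(Ci × Ci, ℂ) :=
  ⟨fun z => e2 p z, by unfold e2; fun_prop⟩

theorem e2c_apply (p : ℤ × ℤ) (z : Ci × Ci) : e2c p z = e2 p z := rfl

theorem lin_apply (c : (ℤ × ℤ) →₀ ℂ) (z : Ci × Ci) :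
    (Finsupp.linearCombination ℂ e2c c) z = c.sum fun p u => u * e2 p z := by
  rw [Finsupp.linearCombination_apply, Finsupp.sum, Finsupp.sum, ContinuousMap.sum_apply]
  rfl

theorem gREP : G_REP := by
  intro Θ _ φ C hC
  -- the map to L²
  let V : ((ℤ × ℤ) →₀ ℂ) →ₗ[ℂ] Lp ℂ 2 Θ :=
    (ContinuousMap.toLp (E := ℂ) 2 Θ ℂ).toLinearMap ∘ₗ Finsupp.linearCombination ℂ e2c
  let L : ((ℤ × ℤ) →₀ ℂ) →ₗ[ℂ] ℂ := Finsupp.linearCombination ℂ φ
  have hLc : ∀ c, L c = c.sum fun p u => u * φ p := by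
    intro c
    show Finsupp.linearCombination ℂ φ c = _
    rw [Finsupp.linearCombination_apply]
    rfl
  have hVc : ∀ c, (V c : Ci × Ci → ℂ) =ᵐ[Θ] fun z => c.sum fun p u => u * e2 p z := by
    intro c
    have h1 := ContinuousMap.coeFn_toLp (p := 2) (𝕜 := ℂ) Θ (Finsupp.linearCombination ℂ e2c c)
    filter_upwards [h1] with z hz
    rw [← lin_apply]
    exact hz
  have hnorm : ∀ c, ‖V c‖ ^ 2 = ∫ z, ‖c.sum fun p u => u * e2 p z‖ ^ 2 ∂Θ := by
    intro c
    have h1 : ((‖V c‖ ^ 2 : ℝ) : ℂ) = inner ℂ (V c) (V c) := by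
      rw [inner_self_eq_norm_sq_to_K]
      norm_cast
    rw [L2.inner_def] at h1
    have h2 : ∫ z, inner ℂ ((V c) z) ((V c) z) ∂Θ = ∫ z, ((‖c.sum fun p u => u * e2 p z‖ ^ 2 : ℝ) : ℂ) ∂Θ := by
      apply integral_congr_ae
      filter_upwards [hVc c] with z hz
      rw [hz, inner_self_eq_norm_sq_to_K]
      norm_cast
    rw [h2, integral_complex_ofReal] at h1
    exact_mod_cast h1
  have hb : ∀ c, ‖L c‖ ^ 2 ≤ |C| * ‖V c‖ ^ 2 := by
    intro c
    rw [hLc, hnorm]
    refine (hC c).trans (mul_le_mul_of_nonneg_right (le_abs_self C) ?_)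
    exact integral_nonneg fun z => by positivity
  have hb' : ∀ c, ‖L c‖ ≤ Real.sqrt |C| * ‖V c‖ := by
    intro c
    apply le_of_sq_le_sq _ (by positivity)
    rw [mul_pow, Real.sq_sqrt (abs_nonneg C)]
    exact hb c
  obtain ⟨s, hs⟩ := LinearMap.exists_rightInverse_of_surjective V.rangeRestrict (LinearMap.range_rangeRestrict V)
  have hs' : ∀ x : LinearMap.range V, V (s x) = x := by
    intro x
    have h1 := congrArg (fun g => (g x : Lp ℂ 2 Θ)) hs
    exact h1
  let g : LinearMap.range V →L[ℂ] ℂ := LinearMap.mkContinuous (L ∘ₗ s) (Real.sqrt |C|) (by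
    intro x
    have h1 := hb' (s x)
    rw [hs' x] at h1
    exact h1)
  obtain ⟨G, hG, -⟩ := exists_extension_norm_eq (LinearMap.range V) g
  have hGV : ∀ c, G (V c) = L c := by
    intro c
    have h1 := hG ⟨V c, LinearMap.mem_range_self V c⟩
    have h2 : g ⟨V c, LinearMap.mem_range_self V c⟩ = L (s ⟨V c, LinearMap.mem_range_self V c⟩) := rfl
    rw [h2] at h1
    have h3 : V (s ⟨V c, LinearMap.mem_range_self V c⟩) = V c := hs' _
    have h4 : L (s ⟨V c, LinearMap.mem_range_self V c⟩) - L c = 0 := by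
      have h5 := hb' (s ⟨V c, LinearMap.mem_range_self V c⟩ - c)
      rw [map_sub, map_sub, h3, sub_self, norm_zero, mul_zero] at h5
      exact norm_le_zero_iff.1 h5
    rw [sub_eq_zero] at h4
    rw [← h4]
    exact h1
  let w : Lp ℂ 2 Θ := (InnerProductSpace.toDual ℂ (Lp ℂ 2 Θ)).symm G
  refine ⟨fun z => conj (w z), (Lp.memLp w).star, fun p => ?_⟩
  have h1 : G (V (Finsupp.single p 1)) = φ p := by
    rw [hGV, hLc, Finsupp.sum_single_index (by simp), one_mul]
  have h2 : inner ℂ w (V (Finsupp.single p 1)) = G (V (Finsupp.single p 1)) :=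
    InnerProductSpace.toDual_symm_apply
  rw [← h1, ← h2, L2.inner_def]
  apply integral_congr_ae
  filter_upwards [hVc (Finsupp.single p 1)] with z hz
  rw [hz, Finsupp.sum_single_index (by simp), one_mul, RCLike.inner_apply, mul_comm]

end Pool.Agent.Helper35.SS
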