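import Pool.Agent.Helper61.SS.Goals

set_option autoImplicit false

namespace Pool.Agent.Helper35.SS

open TensorProduct Filter Topology
open Pool.Agent.Helper61.SS

universe u v w

section

variable {A : Type u} {B : Type v} {C : Type w}
  [NonUnitalNormedRing A] [NormedSpace ℂ A] [NonUnitalNormedRing B] [NormedSpace ℂ B]
  [NonUnitalNormedRing C] [NormedSpace ℂ C]

theorem pn_bddBelow (t : A ⊗[ℂ] B) :
    BddBelow {r : ℝ | ∃ (n : ℕ) (a : Fin n → A) (b : Fin n → B),
      t = ∑ i, a i ⊗ₜ[ℂ] b i ∧ r = ∑ i, ‖a i‖ * ‖b i‖} := by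
  refine ⟨0, ?_⟩
  rintro r ⟨n, a, b, -, rfl⟩
  exact Finset.sum_nonneg fun i _ => by positivity

theorem pn_tmul_le (a : A) (b : B) : pn (a ⊗ₜ[ℂ] b) ≤ ‖a‖ * ‖b‖ := by
  apply csInf_le (pn_bddBelow _)
  exact ⟨1, fun _ => a, fun _ => b, by simp, by simp⟩

theorem le_pn (t : A ⊗[ℂ] B) (x : ℝ) (h : ∀ (n : ℕ) (a : Fin n → A) (b : Fin n → B),
    t = ∑ i, a i ⊗ₜ[ℂ] b i → x ≤ ∑ i, ‖a i‖ * ‖b i‖) : x ≤ pn t := by
  apply le_csInf
  · obtain ⟨n, a, b, hab⟩ := TensorProduct.exists_sum_tmul_eq t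
    exact ⟨_, n, a, b, hab, rfl⟩
  · rintro r ⟨n, a, b, hab, rfl⟩
    exact h n a b hab

theorem j_le (j : A →ₗ[ℂ] B →ₗ[ℂ] C) (hj : IsProj A B C j) (a : A) (b : B) :
    ‖j a b‖ ≤ ‖a‖ * ‖b‖ := by
  have := hj.norm (a ⊗ₜ[ℂ] b)
  rw [TensorProduct.lift.tmul] at this
  rw [this]
  exact pn_tmul_le a b

/-- Existence of slice maps. -/
theorem exists_slice [CompleteSpace B] (j : A →ₗ[ℂ] B →ₗ[ℂ] C) (hj : IsProj A B C j)
    (f : A →L[ℂ] ℂ) : ∃ L : C →L[ℂ] B, ∀ a b, L (j a b) = f a • b := by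
  let g : A →ₗ[ℂ] B →ₗ[ℂ] B := (LinearMap.lsmul ℂ B).comp (f : A →ₗ[ℂ] ℂ)
  have hg : ∀ a b, g a b = f a • b := fun a b => rfl
  have hbound : ∀ t : A ⊗[ℂ] B, ‖TensorProduct.lift g t‖ ≤ ‖f‖ * ‖TensorProduct.lift j t‖ := by
    intro t
    rw [hj.norm]
    rcases eq_or_lt_of_le (norm_nonneg f) with h0 | h0
    · have hf : f = 0 := norm_eq_zero.mp h0.symm
      have : g = 0 := by
        ext a b
        rw [hg, hf]
        simp
      have hz : TensorProduct.lift (0 : A →ₗ[ℂ] B →ₗ[ℂ] B) = 0 :=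
        TensorProduct.ext' fun a b => by simp
      rw [this, ← h0, hz]
      simp
    · rw [← div_le_iff₀' h0]
      apply le_pn
      intro n a b hab
      rw [div_le_iff₀' h0, hab, map_sum, Finset.mul_sum]
      apply (norm_sum_le _ _).trans
      apply Finset.sum_le_sum
      intro i _
      rw [TensorProduct.lift.tmul, hg, norm_smul, ← mul_assoc]
      exact mul_le_mul_of_nonneg_right (f.le_opNorm _) (norm_nonneg _)
  refine ⟨(TensorProduct.lift g).extendOfNorm (TensorProduct.lift j), ?_⟩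
  intro a b
  have := LinearMap.extendOfNorm_eq (f := TensorProduct.lift g) (e := TensorProduct.lift j)
    hj.dense ⟨‖f‖, hbound⟩ (a ⊗ₜ[ℂ] b)
  rw [TensorProduct.lift.tmul, TensorProduct.lift.tmul, hg] at this
  exact this

end

/-- PACKET SLI. -/
theorem gSLI : G_SLI.{u, v, w} := by
  intro hREP A B C _ _ _ _ _ _ _ _ j hj hAP u hu
  obtain ⟨a, b, ha, hb, hab⟩ := hREP A B C j hj u
  have hK : IsCompact (insert (0 : A) (Set.range a)) := ha.isCompact_insert_range
  have main : ∀ ε : ℝ, 0 < ε → ‖u‖ ≤ ε * ∑' n, ‖b n‖ := by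
    intro ε hε
    obtain ⟨S, hfin, hS⟩ := hAP _ hK ε hε
    -- coordinates
    let R := LinearMap.range (S : A →ₗ[ℂ] A)
    let bs := Module.finBasis ℂ R
    let S' : A →L[ℂ] R := S.codRestrict R (fun x => ⟨x, rfl⟩)
    let f : Fin (Module.finrank ℂ R) → A →L[ℂ] ℂ := fun i =>
      (LinearMap.toContinuousLinearMap (bs.coord i)).comp S'
    have hSx : ∀ x, S x = ∑ i, f i x • (bs i : A) := by
      intro x
      have h1 : (∑ i, bs.repr (S' x) i • bs i : R) = S' x := bs.sum_repr _
      have h2 := congrArg (fun y : R => (y : A)) h1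
      simp only [Submodule.coe_sum, Submodule.coe_smul] at h2
      have h3 : ((S' x : R) : A) = S x := rfl
      rw [h3] at h2
      rw [← h2]
      rfl
    -- the finite rank part
    have hzero : HasSum (fun n => j (S (a n)) (b n)) 0 := by
      have hi : ∀ i, HasSum (fun n => f i (a n) • j (bs i : A) (b n)) 0 := by
        intro i
        obtain ⟨L, hL⟩ := exists_slice j hj (f i)
        have h1 : HasSum (fun n => L (j (a n) (b n))) (L u) := hab.mapL L
        rw [hu (f i) L hL] at h1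
        simp only [hL] at h1
        let J : B →L[ℂ] C := LinearMap.mkContinuous (j (bs i : A)) ‖(bs i : A)‖
          (fun y => j_le j hj _ y)
        have h2 : HasSum (fun n => J (f i (a n) • b n)) (J 0) := h1.mapL J
        rw [map_zero] at h2
        have h3 : ∀ n, J (f i (a n) • b n) = f i (a n) • j (bs i : A) (b n) := by
          intro n
          show j (bs i : A) (f i (a n) • b n) = _
          rw [map_smul]
        simpa only [h3] using h2
      have hs : HasSum (fun n => ∑ i, f i (a n) • j (bs i : A) (b n)) (∑ i, (0 : C)) :=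
        hasSum_sum fun i _ => hi i
      rw [Finset.sum_const_zero] at hs
      have he : ∀ n, j (S (a n)) (b n) = ∑ i, f i (a n) • j (bs i : A) (b n) := by
        intro n
        rw [hSx (a n), map_sum, LinearMap.sum_apply]
        apply Finset.sum_congr rfl
        intro i _
        rw [map_smul, LinearMap.smul_apply]
      simpa only [he] using hs
    have hdiff : HasSum (fun n => j (a n - S (a n)) (b n)) u := by
      have h1 := hab.sub hzero
      rw [sub_zero] at h1
      have h2 : (fun n => j (a n - S (a n)) (b n))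
          = fun n => j (a n) (b n) - j (S (a n)) (b n) := by
        funext n
        rw [map_sub, LinearMap.sub_apply]
      rw [h2]
      exact h1
    have hbd : ∀ n, ‖j (a n - S (a n)) (b n)‖ ≤ ε * ‖b n‖ := by
      intro n
      apply (j_le j hj _ _).trans
      apply mul_le_mul_of_nonneg_right _ (norm_nonneg _)
      rw [norm_sub_rev]
      exact hS _ (Set.mem_insert_of_mem _ ⟨n, rfl⟩)
    have hsum : HasSum (fun n => ε * ‖b n‖) (ε * ∑' n, ‖b n‖) := hb.hasSum.mul_left ε
    have := tsum_of_norm_bounded hsum hbd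
    rwa [hdiff.tsum_eq] at this
  have hT : 0 ≤ ∑' n, ‖b n‖ := tsum_nonneg fun n => norm_nonneg _
  have h0 : ‖u‖ ≤ 0 := by
    apply le_of_forall_pos_le_add
    intro δ hδ
    have h1 := main (δ / (1 + ∑' n, ‖b n‖)) (by positivity)
    have h2 : δ / (1 + ∑' n, ‖b n‖) * ∑' n, ‖b n‖ ≤ δ := by
      rw [div_mul_eq_mul_div, div_le_iff₀ (by positivity)]
      nlinarith
    linarith
  exact norm_le_zero_iff.mp h0

end Pool.Agent.Helper35.SS
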