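import Pool.Agent.Helper57.SS.Goals

/-!
# Project SS: packet SNG
-/

set_option autoImplicit false

namespace Pool.Agent.Helper35.SS

open Pool.Agent.Helper57.SS
open MeasureTheory ProbabilityTheory Filter Topology
open scoped ComplexConjugate

theorem gSNG : G_SNG := by
  intro hSHB ν hν η hη h hsing
  obtain ⟨s, hs, hνs, hvs⟩ := hsing
  have hZ : MeasurableSet sᶜ := hs.compl
  have hνZ : ν.real sᶜ = 1 := by
    rw [probReal_compl_eq_one_sub hs, measureReal_def, hνs]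
    simp
  -- Tonelli
  have hS : MeasurableSet {z : Ci × Ci | z.1 + z.2 ∈ sᶜ} :=
    (measurable_fst.add measurable_snd) hZ
  have h0 : (ν.prod (volume : Measure Ci)) {z : Ci × Ci | z.1 + z.2 ∈ sᶜ} = 0 := by
    rw [Measure.measure_prod_null hS]
    refine Eventually.of_forall fun y => ?_
    show (volume : Measure Ci) (Prod.mk y ⁻¹' {z : Ci × Ci | z.1 + z.2 ∈ sᶜ}) = 0
    have h1 : Prod.mk y ⁻¹' {z : Ci × Ci | z.1 + z.2 ∈ sᶜ} = (fun d => y + d) ⁻¹' sᶜ := rfl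
    rw [h1, measure_preimage_add]
    exact hvs
  have h1 : ((volume : Measure Ci).prod ν) (Prod.swap ⁻¹' {z : Ci × Ci | z.1 + z.2 ∈ sᶜ}) = 0 := by
    have h2 := Measure.prod_swap (μ := ν) (ν := (volume : Measure Ci))
    rw [← h2, Measure.map_apply measurable_swap (measurable_swap hS)]
    exact h0
  rw [Measure.measure_prod_null (measurable_swap hS)] at h1
  have h2 : (volume : Measure Ci) {d : Ci | ¬ ν (Prod.mk d ⁻¹' (Prod.swap ⁻¹' {z : Ci × Ci | z.1 + z.2 ∈ sᶜ})) = 0} = 0 := h1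
  have h3 : ((↑) : ℝ → Ci) '' Set.Ioo (-η) η ⊆
      {d : Ci | ¬ ν (Prod.mk d ⁻¹' (Prod.swap ⁻¹' {z : Ci × Ci | z.1 + z.2 ∈ sᶜ})) = 0} := by
    rintro _ ⟨x, hx, rfl⟩
    have h4 := (hSHB ν (1 / 4) (1 / 4)).2.2.2.2.1 (x : Ci) (h x (abs_le.2 ⟨hx.1.le, hx.2.le⟩)) _ hZ
    intro h5
    have h6 : Prod.mk (x : Ci) ⁻¹' (Prod.swap ⁻¹' {z : Ci × Ci | z.1 + z.2 ∈ sᶜ}) = (fun y => y + (x : Ci)) ⁻¹' sᶜ := rfl
    rw [h6] at h5
    rw [hνZ, measureReal_def, h5] at h4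
    simp at h4
    linarith
  have h4 : IsOpen (((↑) : ℝ → Ci) '' Set.Ioo (-η) η) := QuotientAddGroup.isOpenMap_coe _ isOpen_Ioo
  have h5 : (volume : Measure Ci) (((↑) : ℝ → Ci) '' Set.Ioo (-η) η) ≠ 0 :=
    h4.measure_ne_zero _ ⟨_, 0, ⟨by linarith, hη⟩, rfl⟩
  exact h5 (measure_mono_null h3 h2)

end Pool.Agent.Helper35.SS
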