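import Pool.Agent.Helper35.SS.REP

/-!
# Project SS: packet UNI
-/

set_option autoImplicit false

namespace Pool.Agent.Helper35.SS

open Pool.Agent.Helper57.SS
open MeasureTheory ProbabilityTheory Filter Topology
open scoped ComplexConjugate

/-- the star subalgebra generated by the characters -/
noncomputable def e2Sub : StarSubalgebra ℂ C(Ci × Ci, ℂ) where
  toSubalgebra := Algebra.adjoin ℂ (Set.range e2c)
  star_mem' := by
    change Algebra.adjoin ℂ (Set.range e2c) ≤ star (Algebra.adjoin ℂ (Set.range e2c))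
    refine Algebra.adjoin_le ?_
    rintro - ⟨p, rfl⟩
    refine Algebra.subset_adjoin ⟨-p, ?_⟩
    ext z
    show fourier (-p.1) z.1 * fourier (-p.2) z.2 = star (fourier p.1 z.1 * fourier p.2 z.2)
    rw [star_mul', fourier_neg, fourier_neg]
    rfl

theorem e2Sub_coe : Subalgebra.toSubmodule e2Sub.toSubalgebra = Submodule.span ℂ (Set.range e2c) := by
  apply Algebra.adjoin_eq_span_of_subset
  refine Set.Subset.trans ?_ Submodule.subset_span
  intro x hx
  refine Submonoid.closure_induction (fun _ => id) ⟨0, ?_⟩ ?_ hx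
  · ext z
    show fourier 0 z.1 * fourier 0 z.2 = 1
    rw [fourier_zero, fourier_zero, one_mul]
  · rintro - - - - ⟨p, rfl⟩ ⟨q, rfl⟩
    refine ⟨p + q, ?_⟩
    ext z
    show fourier (p.1 + q.1) z.1 * fourier (p.2 + q.2) z.2 =
      (fourier p.1 z.1 * fourier p.2 z.2) * (fourier q.1 z.1 * fourier q.2 z.2)
    rw [fourier_add, fourier_add]
    ring

theorem e2Sub_sep : e2Sub.SeparatesPoints := by
  intro x y hxy
  have hinj : ∀ a b : Ci, (fourier 1 a : ℂ) = fourier 1 b → a = b := by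
    intro a b hab
    rw [fourier_one, fourier_one] at hab
    exact AddCircle.injective_toCircle one_ne_zero (Circle.coe_inj.1 hab)
  by_cases h : x.1 = y.1
  · have h2 : x.2 ≠ y.2 := fun h2 => hxy (Prod.ext h h2)
    refine ⟨_, ⟨e2c (0, 1), Algebra.subset_adjoin ⟨(0, 1), rfl⟩, rfl⟩, ?_⟩
    intro h3
    apply h2
    apply hinj
    have h4 : fourier 0 x.1 * fourier 1 x.2 = fourier 0 y.1 * fourier 1 y.2 := h3
    rwa [fourier_zero, fourier_zero, one_mul, one_mul] at h4
  · refine ⟨_, ⟨e2c (1, 0), Algebra.subset_adjoin ⟨(1, 0), rfl⟩, rfl⟩, ?_⟩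
    intro h3
    apply h
    apply hinj
    have h4 : fourier 1 x.1 * fourier 0 x.2 = fourier 1 y.1 * fourier 0 y.2 := h3
    rwa [fourier_zero, fourier_zero, mul_one, mul_one] at h4

theorem span_e2c_closure : (Submodule.span ℂ (Set.range e2c)).topologicalClosure = ⊤ := by
  rw [← e2Sub_coe]
  exact congr_arg (Subalgebra.toSubmodule <| StarSubalgebra.toSubalgebra ·)
    (ContinuousMap.starSubalgebra_topologicalClosure_eq_top_of_separatesPoints e2Sub e2Sub_sep)

theorem gUNI : G_UNI := by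
  intro Θ1 Θ2 _ _ A ρ1 ρ2 hA hρ1 hρ2 h ψ hψ hb
  obtain ⟨C, hC⟩ := hb
  -- trigonometric polynomials
  have hq : ∀ q ∈ Submodule.span ℂ (Set.range e2c), ∫ z, ρ1 z * q (A z) ∂Θ1 = ∫ z, ρ2 z * q z ∂Θ2 := by
    intro q hq
    have hbd : ∀ (q : C(Ci × Ci, ℂ)) (z : Ci × Ci), ‖q z‖ ≤ ‖q‖ := fun q z => q.norm_coe_le_norm z
    have i1 : ∀ q : C(Ci × Ci, ℂ), Integrable (fun z => ρ1 z * q (A z)) Θ1 := by
      intro q
      refine hρ1.mul_bdd ((q.continuous.measurable.comp hA).aestronglyMeasurable) (c := ‖q‖) ?_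
      exact Eventually.of_forall fun z => hbd q (A z)
    have i2 : ∀ q : C(Ci × Ci, ℂ), Integrable (fun z => ρ2 z * q z) Θ2 := by
      intro q
      refine hρ2.mul_bdd (q.continuous.measurable.aestronglyMeasurable) (c := ‖q‖) ?_
      exact Eventually.of_forall fun z => hbd q z
    induction hq using Submodule.span_induction with
    | mem x hx =>
      obtain ⟨p, rfl⟩ := hx
      exact h p
    | zero => simp
    | add x y _ _ hx hy =>
      have e1 : ∀ z, ρ1 z * (x + y) (A z) = ρ1 z * x (A z) + ρ1 z * y (A z) := by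
        intro z; rw [ContinuousMap.add_apply, mul_add]
      have e2 : ∀ z, ρ2 z * (x + y) z = ρ2 z * x z + ρ2 z * y z := by
        intro z; rw [ContinuousMap.add_apply, mul_add]
      simp only [e1, e2]
      rw [integral_add (i1 x) (i1 y), integral_add (i2 x) (i2 y), hx, hy]
    | smul a x _ hx =>
      have e1 : ∀ z, ρ1 z * (a • x) (A z) = a * (ρ1 z * x (A z)) := by
        intro z; rw [ContinuousMap.smul_apply, smul_eq_mul]; ring
      have e2 : ∀ z, ρ2 z * (a • x) z = a * (ρ2 z * x z) := by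
        intro z; rw [ContinuousMap.smul_apply, smul_eq_mul]; ring
      simp only [e1, e2]
      rw [integral_const_mul, integral_const_mul, hx]
  -- the measure
  have hfin1 : IsFiniteMeasure (Θ1.withDensity fun z => ((‖ρ1 z‖₊ : NNReal) : ENNReal)) :=
    isFiniteMeasure_withDensity (by
      have := hρ1.2
      rw [hasFiniteIntegral_iff_enorm] at this
      exact this.ne)
  have hfin2 : IsFiniteMeasure (Θ2.withDensity fun z => ((‖ρ2 z‖₊ : NNReal) : ENNReal)) :=
    isFiniteMeasure_withDensity (by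
      have := hρ2.2
      rw [hasFiniteIntegral_iff_enorm] at this
      exact this.ne)
  obtain ⟨κ, hκ⟩ : ∃ κ : Measure (Ci × Ci), κ = (Θ1.withDensity fun z => ((‖ρ1 z‖₊ : NNReal) : ENNReal)).map A +
    (Θ2.withDensity fun z => ((‖ρ2 z‖₊ : NNReal) : ENNReal)) := ⟨_, rfl⟩
  have hfin : IsFiniteMeasure κ := by rw [hκ]; infer_instance
  have hψi : Integrable ψ κ := by
    refine Integrable.of_bound hψ.aestronglyMeasurable C (Eventually.of_forall hC)
  -- the error
  have herr : ∀ q : C(Ci × Ci, ℂ), q ∈ Submodule.span ℂ (Set.range e2c) →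
      ‖∫ z, ρ1 z * ψ (A z) ∂Θ1 - ∫ z, ρ2 z * ψ z ∂Θ2‖ ≤ ∫ z, ‖ψ z - q z‖ ∂κ := by
    intro q hqs
    have hqm : Measurable q := q.continuous.measurable
    have hbq : ∀ z : Ci × Ci, ‖q z‖ ≤ ‖q‖ := fun z => q.norm_coe_le_norm z
    have i1 : Integrable (fun z => ρ1 z * ψ (A z)) Θ1 :=
      hρ1.mul_bdd ((hψ.comp hA).aestronglyMeasurable) (c := C) (Eventually.of_forall fun z => hC (A z))
    have i2 : Integrable (fun z => ρ2 z * ψ z) Θ2 :=
      hρ2.mul_bdd (hψ.aestronglyMeasurable) (c := C) (Eventually.of_forall fun z => hC z)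
    have j1 : Integrable (fun z => ρ1 z * q (A z)) Θ1 :=
      hρ1.mul_bdd ((hqm.comp hA).aestronglyMeasurable) (c := ‖q‖) (Eventually.of_forall fun z => hbq (A z))
    have j2 : Integrable (fun z => ρ2 z * q z) Θ2 :=
      hρ2.mul_bdd (hqm.aestronglyMeasurable) (c := ‖q‖) (Eventually.of_forall fun z => hbq z)
    have e1 : ∫ z, ρ1 z * ψ (A z) ∂Θ1 - ∫ z, ρ2 z * ψ z ∂Θ2 =
        (∫ z, ρ1 z * (ψ (A z) - q (A z)) ∂Θ1) - ∫ z, ρ2 z * (ψ z - q z) ∂Θ2 := by
      have a1 : ∀ z, ρ1 z * (ψ (A z) - q (A z)) = ρ1 z * ψ (A z) - ρ1 z * q (A z) := fun z => by ring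
      have a2 : ∀ z, ρ2 z * (ψ z - q z) = ρ2 z * ψ z - ρ2 z * q z := fun z => by ring
      simp only [a1, a2]
      rw [integral_sub i1 j1, integral_sub i2 j2, hq q hqs]
      ring
    have hint : Integrable (fun z => ‖ψ z - q z‖) κ := by
      refine Integrable.of_bound (hψ.sub hqm).norm.aestronglyMeasurable (C + ‖q‖) (Eventually.of_forall fun z => ?_)
      rw [Real.norm_eq_abs, abs_of_nonneg (norm_nonneg _)]
      exact (norm_sub_le _ _).trans (add_le_add (hC z) (hbq z))
    rw [hκ] at hint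
    have hint1 := (integrable_add_measure.1 hint).1
    have hint2 := (integrable_add_measure.1 hint).2
    have e2 : ∫ z, ‖ψ z - q z‖ ∂κ = ∫ z, ‖ρ1 z‖ * ‖ψ (A z) - q (A z)‖ ∂Θ1 + ∫ z, ‖ρ2 z‖ * ‖ψ z - q z‖ ∂Θ2 := by
      rw [hκ, integral_add_measure hint1 hint2]
      congr 1
      · rw [integral_map hA.aemeasurable hint1.1]
        rw [integral_withDensity_eq_integral_smul₀ hρ1.1.aemeasurable.nnnorm]
        rfl
      · rw [integral_withDensity_eq_integral_smul₀ hρ2.1.aemeasurable.nnnorm]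
        rfl
    rw [e1, e2]
    refine (norm_sub_le _ _).trans (add_le_add ?_ ?_)
    · refine (norm_integral_le_integral_norm _).trans (le_of_eq ?_)
      simp only [norm_mul]
    · refine (norm_integral_le_integral_norm _).trans (le_of_eq ?_)
      simp only [norm_mul]
  -- approximation
  have happ : ∀ ε : ℝ, 0 < ε → ∃ q ∈ Submodule.span ℂ (Set.range e2c), ∫ z, ‖ψ z - q z‖ ∂κ ≤ ε := by
    intro ε hε
    obtain ⟨g, hg, hgi⟩ := hψi.exists_boundedContinuous_integral_sub_le (half_pos hε)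
    obtain ⟨K, hK0, hK⟩ : ∃ K : ℝ, 0 < K ∧ κ.real Set.univ ≤ K := ⟨κ.real Set.univ + 1, by positivity, by linarith⟩
    have h1 : (g.toContinuousMap : C(Ci × Ci, ℂ)) ∈ (Submodule.span ℂ (Set.range e2c)).topologicalClosure := by
      rw [span_e2c_closure]
      trivial
    have h2 : (g.toContinuousMap : C(Ci × Ci, ℂ)) ∈ closure (Submodule.span ℂ (Set.range e2c) : Set C(Ci × Ci, ℂ)) := h1
    obtain ⟨q, hq, hqd⟩ := Metric.mem_closure_iff.1 h2 (ε / 2 / K) (by positivity)
    refine ⟨q, hq, ?_⟩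
    have h3 : ∀ z, ‖g z - q z‖ ≤ ε / 2 / K := by
      intro z
      have h4 := (g.toContinuousMap - q).norm_coe_le_norm z
      rw [dist_eq_norm] at hqd
      exact h4.trans hqd.le
    have hgq : Integrable (fun z => ‖g z - q z‖) κ := by
      refine Integrable.of_bound (g.continuous.sub q.continuous).norm.measurable.aestronglyMeasurable
        (ε / 2 / K) (Eventually.of_forall fun z => ?_)
      rw [Real.norm_eq_abs, abs_of_nonneg (norm_nonneg _)]
      exact h3 z
    calc ∫ z, ‖ψ z - q z‖ ∂κ ≤ ∫ z, (‖ψ z - g z‖ + ‖g z - q z‖) ∂κ := by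
          apply integral_mono_of_nonneg (Eventually.of_forall fun z => norm_nonneg _)
            ((hψi.sub hgi).norm.add hgq) (Eventually.of_forall fun z => ?_)
          exact norm_sub_le_norm_sub_add_norm_sub _ _ _
      _ = ∫ z, ‖ψ z - g z‖ ∂κ + ∫ z, ‖g z - q z‖ ∂κ := integral_add (hψi.sub hgi).norm hgq
      _ ≤ ε / 2 + ∫ z, (ε / 2 / K) ∂κ :=
          add_le_add hg (integral_mono hgq (integrable_const _) h3)
      _ ≤ ε / 2 + K * (ε / 2 / K) := by
          rw [integral_const, smul_eq_mul]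
          gcongr
      _ = ε := by field_simp; ring
  rw [← sub_eq_zero, ← norm_le_zero_iff]
  refine le_of_forall_pos_le_add fun ε hε => ?_
  obtain ⟨q, hq1, hq2⟩ := happ ε hε
  rw [zero_add]
  exact (herr q hq1).trans hq2

end Pool.Agent.Helper35.SS
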